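import Mathlib

set_option autoImplicit false

/-!
# Two-length oriented percolation on the `d`-ary tree: definitions

The vertices of the oriented `d`-ary tree are the words over `Fin d`; the root is the empty word and
the children of `v` are the words `i :: v`; the descendants of `v` which are `k` generations below
`v` are the words `u ++ v` with `u` of length `k`.
-/

namespace Pool.Agent.X136.TP

open MeasureTheory ProbabilityTheory

/-- A configuration: `(c w).1` says whether the edge of length `1` ending at `w` is open, `(c w).2`
says whether the edge of length `k` ending at `w` is open. -/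
abbrev Conf (d : ℕ) : Type := List (Fin d) → Bool × Bool

/-- There is an open edge from `v` to `w`. -/
def Step {d : ℕ} (k : ℕ) (c : Conf d) (v w : List (Fin d)) : Prop :=
  (∃ i : Fin d, w = i :: v ∧ (c w).1 = true) ∨
    ∃ u : List (Fin d), u.length = k ∧ w = u ++ v ∧ (c w).2 = true

/-- The set of vertices which can be reached from the root by an oriented path of open edges. -/
def cluster {d : ℕ} (k : ℕ) (c : Conf d) : Set (List (Fin d)) :=
  {w | Relation.ReflTransGen (Step k c) [] w}

/-- All edges are independent; edges of length `1` are open with probability `p`, edges of length
`k` are open with probability `q`. -/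
noncomputable def law (d : ℕ) (p q : unitInterval) : Measure (Conf d) :=
  Measure.infinitePi fun _ : List (Fin d) =>
    (bernoulliMeasure true false p).prod (bernoulliMeasure true false q)

/-- The probability that the cluster of the root is infinite. -/
noncomputable def theta (d k : ℕ) (p q : unitInterval) : ℝ :=
  (law d p q).real {c | (cluster k c).Infinite}

/-- The critical curve `q_c(p) = inf {q ∈ (0,1) : θ(p,q) > 0}` for `p ∈ [0,1]`. -/
noncomputable def qc (d k : ℕ) (p : ℝ) : ℝ :=
  sInf {q : ℝ | q ∈ Set.Ioo (0 : ℝ) 1 ∧
    0 < theta d k (Set.projIcc 0 1 zero_le_one p) (Set.projIcc 0 1 zero_le_one q)}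

end Pool.Agent.X136.TP
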