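import Pool.Agent.X136.GT.Meas

set_option autoImplicit false

/-!
# Product measures indexed by words over an arbitrary alphabet
-/

namespace Pool.Agent.X136.TP

open MeasureTheory ProbabilityTheory

variable {ι E : Type*} [MeasurableSpace E] (m : Measure E) [IsProbabilityMeasure m]

/-- the product law on words -/
noncomputable abbrev PL (ι : Type*) : Measure (List ι → E) :=
  Measure.infinitePi fun _ : List ι => m

/-- the family seen from the vertex `u` -/
def shift (u : List ι) (ω : List ι → E) : List ι → E := fun v => ω (v ++ u)

theorem measurable_shift (u : List ι) : Measurable (shift u : (List ι → E) → List ι → E) := by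
  refine measurable_pi_lambda _ fun v => ?_
  exact measurable_pi_apply _

/-- splitting at the root -/
theorem mp_root : MeasurePreserving
    (fun ω : List ι → E => (ω [], fun i : ι => shift [i] ω)) (PL m ι)
    (m.prod (Measure.infinitePi fun _ : ι => PL m ι)) := by
  have h1 := GT.mp_split2 m (κ₁ := Unit) (κ₂ := ι × List ι) (ι := List ι)
    (fun o => Sum.elim (fun _ => ([] : List ι)) (fun q => q.2 ++ [q.1]) o) (by
      rintro (_ | a) (_ | b) h
      · rfl
      · simp at h
      · simp at h
      · simp only [Sum.elim_inr] at h
        obtain ⟨h1, h2⟩ := List.append_inj' h rfl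
        have h3 : a.1 = b.1 := by simpa using h2
        exact congrArg Sum.inr (Prod.ext h3 h1))
  have h2 : MeasurePreserving (fun (Y : ι × List ι → E) (i : ι) (v : List ι) => Y (i, v))
      (Measure.infinitePi fun _ : ι × List ι => m) (Measure.infinitePi fun _ : ι => PL m ι) := by
    refine ⟨by fun_prop, ?_⟩
    exact Measure.infinitePi_map_curry (fun (_ : ι) (_ : List ι) => m)
  have h3 := (measurePreserving_eval_infinitePi (fun _ : Unit => m) ()).prod h2
  exact h3.comp h1

/-- a set determined by the words of length `< n` -/
def Det (n : ℕ) (F : Set (List ι → E)) : Prop :=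
  ∀ ω ω' : List ι → E, (∀ v, v.length < n → ω v = ω' v) → (ω ∈ F ↔ ω' ∈ F)

theorem indep_shift [Nonempty E] {n : ℕ} {F A : Set (List ι → E)} (hF : MeasurableSet F)
    (hdet : Det n F) (hA : MeasurableSet A) {u : List ι} (hu : n ≤ u.length) :
    PL m ι (F ∩ {ω | shift u ω ∈ A}) = PL m ι F * PL m ι A := by
  classical
  let e0 : E := Classical.arbitrary E
  let ext : ({v : List ι // v.length < n} → E) → List ι → E := fun z v =>
    if h : v.length < n then z ⟨v, h⟩ else e0
  have hext : Measurable ext := by
    refine measurable_pi_lambda _ fun v => ?_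
    by_cases h : v.length < n
    · have : (fun z : {v : List ι // v.length < n} → E => ext z v) = fun z => z ⟨v, h⟩ := by
        funext z; simp only [ext, dif_pos h]
      rw [this]; exact measurable_pi_apply _
    · have : (fun z : {v : List ι // v.length < n} → E => ext z v) = fun _ => e0 := by
        funext z; simp only [ext, dif_neg h]
      rw [this]; exact measurable_const
  have hsp := GT.mp_split2 m (κ₁ := {v : List ι // v.length < n}) (κ₂ := List ι) (ι := List ι)
    (fun o => Sum.elim (fun v => v.1) (fun v => v ++ u) o) (by
      rintro (a | a) (b | b) h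
      · exact congrArg Sum.inl (Subtype.ext h)
      · exfalso
        simp only [Sum.elim_inl, Sum.elim_inr] at h
        have h1 := a.2
        rw [h, List.length_append] at h1
        omega
      · exfalso
        simp only [Sum.elim_inl, Sum.elim_inr] at h
        have h1 := b.2
        rw [← h, List.length_append] at h1
        omega
      · simp only [Sum.elim_inr] at h
        exact congrArg Sum.inr (List.append_cancel_right h))
  set F' : Set ({v : List ι // v.length < n} → E) := ext ⁻¹' F with hF'
  have hF'm : MeasurableSet F' := hext hF
  have hmem : ∀ ω : List ι → E, ω ∈ F ↔ (fun v : {v : List ι // v.length < n} => ω v.1) ∈ F' := by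
    intro ω
    refine hdet ω _ fun v hv => ?_
    simp only [ext, dif_pos hv]
  have e1 : F ∩ {ω | shift u ω ∈ A} = (fun ω : List ι → E =>
      ((fun k : {v : List ι // v.length < n} => ω k.1), (fun k : List ι => ω (k ++ u)))) ⁻¹'
      (F' ×ˢ A) := by
    ext ω
    constructor
    · rintro ⟨h1, h2⟩
      exact ⟨(hmem ω).1 h1, h2⟩
    · rintro ⟨h1, h2⟩
      exact ⟨(hmem ω).2 h1, h2⟩
  have e2 : F = (fun ω : List ι → E =>
      ((fun k : {v : List ι // v.length < n} => ω k.1), (fun k : List ι => ω (k ++ u)))) ⁻¹'
      (F' ×ˢ Set.univ) := by
    ext ω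
    constructor
    · intro h1
      exact ⟨(hmem ω).1 h1, trivial⟩
    · rintro ⟨h1, h2⟩
      exact (hmem ω).2 h1
  have h1 := hsp.measure_preimage (hF'm.prod hA).nullMeasurableSet
  have h2 := hsp.measure_preimage (hF'm.prod MeasurableSet.univ).nullMeasurableSet
  rw [Measure.prod_prod] at h1 h2
  rw [measure_univ, mul_one] at h2
  have h3 : PL m ι F = (Measure.infinitePi fun _ : {v : List ι // v.length < n} => m) F' := by
    conv_lhs => rw [e2]
    exact h2
  rw [e1, h3]
  exact h1

/-- sets determined by finitely many finite coordinates are measurable -/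
theorem Det.measurableSet [Finite ι] [Finite E] [Nonempty E] [MeasurableSingletonClass E] {n : ℕ}
    {F : Set (List ι → E)} (h : Det n F) : MeasurableSet F := by
  classical
  let e0 : E := Classical.arbitrary E
  let ext : ({v : List ι // v.length < n} → E) → List ι → E := fun z v =>
    if h : v.length < n then z ⟨v, h⟩ else e0
  have hfin : Finite {v : List ι // v.length < n} := by
    have : {v : List ι | v.length < n}.Finite := List.finite_length_lt ι n
    exact this.to_subtype
  have hmem : ∀ ω : List ι → E, ω ∈ F ↔
      (fun v : {v : List ι // v.length < n} => ω v.1) ∈ ext ⁻¹' F := by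
    intro ω
    refine h ω _ fun v hv => ?_
    simp only [ext, dif_pos hv]
  have hm : MeasurableSet (ext ⁻¹' F) := (Set.toFinite _).measurableSet
  have e : F = (fun (ω : List ι → E) (v : {v : List ι // v.length < n}) => ω v.1) ⁻¹'
      (ext ⁻¹' F) := by
    ext ω; exact hmem ω
  rw [e]
  exact (measurable_pi_lambda _ fun v => measurable_pi_apply _) hm

end Pool.Agent.X136.TP
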