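import Pool.Agent.X136.TP.Defs
import Pool.Agent.X136.TP.Meas

set_option autoImplicit false

/-!
# The first moment bound
-/

namespace Pool.Agent.X136.TP

open MeasureTheory ProbabilityTheory

variable {d k : ℕ}

/-- law of one mark -/
noncomputable def mk (p q : unitInterval) : Measure (Bool × Bool) :=
  (bernoulliMeasure true false p).prod (bernoulliMeasure true false q)

instance (p q : unitInterval) : IsProbabilityMeasure (mk p q) := by unfold mk; infer_instance

theorem law_eq (p q : unitInterval) : law d p q = PL (mk p q) (Fin d) := rfl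

theorem root_mem (c : Conf d) : [] ∈ cluster k c := Relation.ReflTransGen.refl

/-- all short edges below `v` along `u` are open -/
def AllShort (c : Conf d) (v : List (Fin d)) : List (Fin d) → Prop
  | [] => True
  | i :: u => AllShort c v u ∧ (c (i :: (u ++ v))).1 = true

theorem allShort_mem (c : Conf d) {v : List (Fin d)} (hv : v ∈ cluster k c) :
    ∀ u, AllShort c v u → u ++ v ∈ cluster k c
  | [], _ => hv
  | i :: u, h => Relation.ReflTransGen.tail (allShort_mem c hv u h.1) (Or.inl ⟨i, rfl, h.2⟩)

/-- the last step -/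
theorem last_step (hk : 1 ≤ k) (c : Conf d) {w : List (Fin d)} (hw : w ∈ cluster k c)
    (hne : w ≠ []) :
    (∃ i v, w = i :: v ∧ v ∈ cluster k c ∧ (c w).1 = true) ∨
    ∃ u v, u.length = k ∧ w = u ++ v ∧ v ∈ cluster k c ∧ (c w).2 = true ∧ ¬ AllShort c v u := by
  rcases Relation.ReflTransGen.cases_tail hw with h | ⟨v, hv, hstep⟩
  · exact absurd h hne
  rcases hstep with ⟨i, rfl, h⟩ | ⟨u, hu, rfl, h⟩
  · exact Or.inl ⟨i, v, rfl, hv, h⟩
  · by_cases hall : AllShort c v u
    · left
      obtain ⟨i, u', rfl⟩ : ∃ i u', u = i :: u' := by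
        cases u with
        | nil => simp at hu; omega
        | cons i u' => exact ⟨i, u', rfl⟩
      exact ⟨i, u' ++ v, rfl, allShort_mem c hv u' hall.1, hall.2⟩
    · exact Or.inr ⟨u, v, hu, rfl, hv, h, hall⟩

theorem cluster_congr {c c' : Conf d} {w : List (Fin d)} (hw : w ∈ cluster k c) :
    (∀ v, v.length ≤ w.length → c v = c' v) → w ∈ cluster k c' := by
  have hw' : Relation.ReflTransGen (Step k c) [] w := hw
  induction hw' with
  | refl => intro _; exact root_mem c'
  | tail hab hbc ih =>
    intro h
    rename_i b w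
    have hlen : b.length ≤ w.length := by
      rcases hbc with ⟨i, rfl, -⟩ | ⟨u, -, rfl, -⟩ <;> simp
    refine Relation.ReflTransGen.tail (ih hab fun v hv => h v (hv.trans hlen)) ?_
    unfold Step at hbc ⊢
    rwa [h w le_rfl] at hbc

/-- reachable from the root -/
def RM (k : ℕ) (w : List (Fin d)) : Set (Conf d) := {c | w ∈ cluster k c}

theorem det_RM (w : List (Fin d)) : Det (w.length + 1) (RM k w) := by
  intro c c' h
  constructor
  · intro hc
    exact cluster_congr hc fun v hv => h v (by omega)
  · intro hc
    exact cluster_congr hc fun v hv => (h v (by omega)).symm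

theorem measurable_RM (w : List (Fin d)) : MeasurableSet (RM k w) := (det_RM w).measurableSet

/-- all marks of the suffixes of `u` -/
def AS (ω : Conf d) : List (Fin d) → Prop
  | [] => (ω []).1 = true
  | i :: u => AS ω u ∧ (ω (i :: u)).1 = true

theorem allShort_iff (c : Conf d) (v : List (Fin d)) (i : Fin d) : ∀ u : List (Fin d),
    AllShort c v (u ++ [i]) ↔ AS (shift (i :: v) c) u
  | [] => by
    show (True ∧ (c (i :: ([] ++ v))).1 = true) ↔ (c ([] ++ (i :: v))).1 = true
    simp
  | j :: u => by
    show (AllShort c v (u ++ [i]) ∧ (c (j :: ((u ++ [i]) ++ v))).1 = true) ↔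
      AS (shift (i :: v) c) u ∧ (c ((j :: u) ++ (i :: v))).1 = true
    rw [allShort_iff c v i u]
    simp

theorem det_AS (u : List (Fin d)) : Det (u.length + 1) {ω : Conf d | AS ω u} := by
  induction u with
  | nil =>
    intro ω ω' h
    show (ω []).1 = true ↔ (ω' []).1 = true
    rw [h [] (by simp)]
  | cons i u ih =>
    intro ω ω' h
    have h1 := ih ω ω' fun v hv => h v (by simp only [List.length_cons]; omega)
    show (AS ω u ∧ (ω (i :: u)).1 = true) ↔ (AS ω' u ∧ (ω' (i :: u)).1 = true)
    rw [h (i :: u) (by simp)]
    exact and_congr h1 Iff.rfl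

theorem bern_true (p : unitInterval) : bernoulliMeasure true false p {true} =
    ENNReal.ofReal p := by
  rw [bernoulliMeasure_def]
  simp only [Measure.add_apply, Measure.smul_apply, MeasurableSet.singleton,
    Measure.dirac_apply', Set.indicator_apply, Set.mem_singleton_iff, Pi.one_apply,
    ENNReal.smul_def, smul_eq_mul]
  simp only [if_true, Bool.false_eq_true, if_false, mul_zero, add_zero, mul_one]
  exact (ENNReal.ofReal_eq_coe_nnreal p.2.1).symm

theorem prob_root (p q : unitInterval) (b : Set (Bool × Bool)) :
    law d p q {ω | ω [] ∈ b} = mk p q b := by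
  have h2 := (measurePreserving_eval_infinitePi (fun _ : List (Fin d) => mk p q)
    []).measure_preimage (s := b) (MeasurableSet.of_discrete).nullMeasurableSet
  exact h2

theorem measurable_mark (b : Set (Bool × Bool)) (u : List (Fin d)) :
    MeasurableSet {ω : Conf d | ω u ∈ b} := by
  have : Measurable fun ω : Conf d => ω u := measurable_pi_apply _
  exact this (t := b) MeasurableSet.of_discrete

theorem mk_fst (p q : unitInterval) : mk p q {e | e.1 = true} = ENNReal.ofReal p := by
  have : {e : Bool × Bool | e.1 = true} = {true} ×ˢ Set.univ := by ext e; simp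
  rw [this, mk, Measure.prod_prod, measure_univ, mul_one, bern_true]

theorem mk_snd (p q : unitInterval) : mk p q {e | e.2 = true} = ENNReal.ofReal q := by
  have : {e : Bool × Bool | e.2 = true} = Set.univ ×ˢ {true} := by ext e; simp
  rw [this, mk, Measure.prod_prod, measure_univ, one_mul, bern_true]

theorem mk_both (p q : unitInterval) : mk p q {e | e.1 = true ∧ e.2 = true} =
    ENNReal.ofReal p * ENNReal.ofReal q := by
  have : {e : Bool × Bool | e.1 = true ∧ e.2 = true} = {true} ×ˢ {true} := by
    ext ⟨a, b⟩; simp
  rw [this, mk, Measure.prod_prod, bern_true, bern_true]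

theorem prob_AS (p q : unitInterval) (u : List (Fin d)) :
    law d p q {ω | AS ω u} = ENNReal.ofReal p ^ (u.length + 1) := by
  induction u with
  | nil =>
    rw [List.length_nil, zero_add, pow_one, ← mk_fst p q, ← prob_root (d := d)]
    rfl
  | cons i u ih =>
    have h := indep_shift (mk p q) (n := u.length + 1) (F := {ω : Conf d | AS ω u})
      (A := {ω | ω [] ∈ {e : Bool × Bool | e.1 = true}}) (det_AS u).measurableSet (det_AS u)
      (measurable_mark _ _) (u := i :: u) (by simp)
    have h2 := prob_root (d := d) p q {e : Bool × Bool | e.1 = true}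
    rw [law_eq] at ih h2
    rw [ih, h2, mk_fst] at h
    rw [List.length_cons, pow_succ]
    exact h

theorem prob_AS_snd (p q : unitInterval) (u : List (Fin d)) :
    law d p q {ω | AS ω u ∧ (ω u).2 = true} =
      ENNReal.ofReal p ^ (u.length + 1) * ENNReal.ofReal q := by
  cases u with
  | nil =>
    rw [List.length_nil, zero_add, pow_one, ← mk_both p q, ← prob_root (d := d)]
    rfl
  | cons i u =>
    have h := indep_shift (mk p q) (n := u.length + 1) (F := {ω : Conf d | AS ω u})
      (A := {ω | ω [] ∈ {e : Bool × Bool | e.1 = true ∧ e.2 = true}}) (det_AS u).measurableSet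
      (det_AS u) (measurable_mark _ _) (u := i :: u) (by simp)
    have h2 := prob_root (d := d) p q {e : Bool × Bool | e.1 = true ∧ e.2 = true}
    have h3 := prob_AS (d := d) p q u
    rw [law_eq] at h2 h3
    rw [h3, h2, mk_both] at h
    rw [List.length_cons, pow_succ (ENNReal.ofReal p) (u.length + 1), mul_assoc]
    rw [← h]
    have e : {ω : Conf d | AS ω (i :: u) ∧ (ω (i :: u)).2 = true} =
        {ω | AS ω u} ∩ {ω | shift (i :: u) ω ∈ {ω : Conf d | ω [] ∈
          {e : Bool × Bool | e.1 = true ∧ e.2 = true}}} := by
      ext ω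
      show ((AS ω u ∧ (ω (i :: u)).1 = true) ∧ (ω (i :: u)).2 = true) ↔
        (AS ω u ∧ ((ω ([] ++ (i :: u))).1 = true ∧ (ω ([] ++ (i :: u))).2 = true))
      rw [List.nil_append, and_assoc]
    rw [e]
    rfl

theorem prob_snd (p q : unitInterval) (u : List (Fin d)) :
    law d p q {ω | (ω u).2 = true} = ENNReal.ofReal q := by
  have h2 := (measurePreserving_eval_infinitePi (fun _ : List (Fin d) => mk p q)
    u).measure_preimage (s := {e : Bool × Bool | e.2 = true})
      (MeasurableSet.of_discrete).nullMeasurableSet
  rw [mk_snd] at h2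
  exact h2

theorem prob_long (p q : unitInterval) (u : List (Fin d)) :
    law d p q {ω | (ω u).2 = true ∧ ¬ AS ω u} ≤
      ENNReal.ofReal (q * (1 - p ^ (u.length + 1))) := by
  have hm : MeasurableSet {ω : Conf d | AS ω u ∧ (ω u).2 = true} :=
    (det_AS u).measurableSet.inter (measurable_mark {e | e.2 = true} u)
  have e : {ω : Conf d | (ω u).2 = true ∧ ¬ AS ω u} =
      {ω | (ω u).2 = true} \ {ω | AS ω u ∧ (ω u).2 = true} := by
    ext ω
    simp only [Set.mem_ofPred_eq, Set.mem_diff]
    tauto
  have hsub : {ω : Conf d | AS ω u ∧ (ω u).2 = true} ⊆ {ω | (ω u).2 = true} := fun ω h => h.2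
  have : IsProbabilityMeasure (law d p q) := by rw [law_eq]; infer_instance
  rw [e, measure_diff hsub hm.nullMeasurableSet (measure_ne_top _ _), prob_snd, prob_AS_snd]
  have hp0 : (0 : ℝ) ≤ p := p.2.1
  have hq0 : (0 : ℝ) ≤ q := q.2.1
  rw [← ENNReal.ofReal_pow hp0, ← ENNReal.ofReal_mul (pow_nonneg hp0 _),
    ← ENNReal.ofReal_sub _ (mul_nonneg (pow_nonneg hp0 _) hq0)]
  refine ENNReal.ofReal_le_ofReal (le_of_eq ?_)
  ring

/-- the first moment estimate for one vertex -/
theorem prob_reach (hk : 1 ≤ k) (p q : unitInterval) {x : ℝ} (hx0 : 0 < x)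
    (hx : p / x + q * (1 - p ^ k) / x ^ k ≤ 1) (w : List (Fin d)) :
    law d p q (RM k w) ≤ ENNReal.ofReal (x ^ w.length) := by
  have : IsProbabilityMeasure (law d p q) := by rw [law_eq]; infer_instance
  have hp0 : (0 : ℝ) ≤ p := p.2.1
  have hp1 : (p : ℝ) ≤ 1 := p.2.2
  have hq0 : (0 : ℝ) ≤ q := q.2.1
  have hpk : (0 : ℝ) ≤ 1 - p ^ k := by
    have := pow_le_one₀ (n := k) hp0 hp1
    linarith
  induction hn : w.length using Nat.strong_induction_on generalizing w with
  | _ n ih =>
    rcases w with _ | ⟨i, v⟩
    · simp only [List.length_nil] at hn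
      rw [← hn]
      simpa using prob_le_one
    · -- first part
      have hvn : v.length < n := by rw [← hn]; simp
      have h1 : law d p q {c | v ∈ cluster k c ∧ (c (i :: v)).1 = true} ≤
          ENNReal.ofReal (x ^ v.length * p) := by
        have h := indep_shift (mk p q) (n := v.length + 1) (F := RM k v)
          (A := {ω : Conf d | ω [] ∈ {e : Bool × Bool | e.1 = true}}) (measurable_RM v)
          (det_RM v) (measurable_mark _ _) (u := i :: v) (by simp)
        have h2 := prob_root (d := d) p q {e : Bool × Bool | e.1 = true}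
        rw [law_eq] at h2
        rw [h2, mk_fst] at h
        have h3 := ih v.length hvn v rfl
        rw [ENNReal.ofReal_mul (by positivity)]
        refine le_trans (le_of_eq ?_) (mul_le_mul' h3 le_rfl)
        exact h
      rcases Nat.lt_or_ge n k with hlt | hge
      · have hsub : RM k (i :: v) ⊆ {c | v ∈ cluster k c ∧ (c (i :: v)).1 = true} := by
          intro c hc
          rcases last_step hk c hc (by simp) with ⟨j, v', he, h4, h5⟩ | ⟨u, v', hu, he, -⟩
          · obtain ⟨rfl, rfl⟩ := List.cons.inj he
            exact ⟨h4, h5⟩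
          · exfalso
            have h6 := congrArg List.length he
            rw [List.length_append] at h6
            omega
        refine (measure_mono hsub).trans (h1.trans (ENNReal.ofReal_le_ofReal ?_))
        have hn' : n = v.length + 1 := by rw [← hn]; simp
        rw [hn', pow_succ]
        have : p / x ≤ 1 := by
          have : 0 ≤ q * (1 - p ^ k) / x ^ k := by positivity
          linarith
        have h7 : (p : ℝ) ≤ x := by rwa [div_le_one hx0] at this
        gcongr
      · -- decomposition of the word
        obtain ⟨u, j, z, hu, hw⟩ : ∃ u j z, u.length + 1 = k ∧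
            (i :: v : List (Fin d)) = (u ++ [j]) ++ z := by
          have hlen : ((i :: v).take k).length = k := by
            rw [List.length_take, hn]; exact min_eq_left hge
          have hne : (i :: v).take k ≠ [] := by
            intro h
            rw [h] at hlen
            simp at hlen; omega
          refine ⟨((i :: v).take k).dropLast, ((i :: v).take k).getLast hne, (i :: v).drop k, ?_, ?_⟩
          · rw [List.length_dropLast, hlen]; omega
          · rw [List.dropLast_append_getLast hne, List.take_append_drop]
        have hzlen : z.length + k = n := by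
          rw [← hn, hw, List.length_append, List.length_append, List.length_singleton]
          omega
        have h2 : law d p q {c | z ∈ cluster k c ∧ (c (i :: v)).2 = true ∧
            ¬ AllShort c z (u ++ [j])} ≤ ENNReal.ofReal (x ^ z.length * (q * (1 - p ^ k))) := by
          have h := indep_shift (mk p q) (n := z.length + 1) (F := RM k z)
            (A := {ω : Conf d | (ω u).2 = true ∧ ¬ AS ω u}) (measurable_RM z)
            (det_RM z) ((measurable_mark {e | e.2 = true} u).inter
              (det_AS u).measurableSet.compl) (u := j :: z) (by simp)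
          have h3 := ih z.length (by omega) z rfl
          have h4 := prob_long (d := d) p q u
          rw [hu] at h4
          rw [ENNReal.ofReal_mul (by positivity)]
          refine le_trans (le_of_eq ?_) (mul_le_mul' h3 h4)
          refine Eq.trans ?_ h
          rw [law_eq]
          congr 1
          ext c
          show (z ∈ cluster k c ∧ (c (i :: v)).2 = true ∧ ¬ AllShort c z (u ++ [j])) ↔
            (z ∈ cluster k c ∧ ((c (u ++ (j :: z))).2 = true ∧ ¬ AS (shift (j :: z) c) u))
          rw [allShort_iff]
          have : u ++ (j :: z) = i :: v := by rw [hw]; simp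
          rw [this]
        have hsub : RM k (i :: v) ⊆ {c | v ∈ cluster k c ∧ (c (i :: v)).1 = true} ∪
            {c | z ∈ cluster k c ∧ (c (i :: v)).2 = true ∧ ¬ AllShort c z (u ++ [j])} := by
          intro c hc
          rcases last_step hk c hc (by simp) with ⟨j', v', he, h4, h5⟩ |
            ⟨u', v', hu', he, h4, h5, h6⟩
          · obtain ⟨rfl, rfl⟩ := List.cons.inj he
            exact Or.inl ⟨h4, h5⟩
          · right
            have h7 : u' = u ++ [j] ∧ v' = z := by
              rw [hw] at he
              have := List.append_inj he.symm (by rw [hu', List.length_append]; simp; omega)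
              exact this
            obtain ⟨rfl, rfl⟩ := h7
            exact ⟨h4, h5, h6⟩
        refine (measure_mono hsub).trans ((measure_union_le _ _).trans ((add_le_add h1 h2).trans ?_))
        rw [← ENNReal.ofReal_add (by positivity) (by positivity)]
        refine ENNReal.ofReal_le_ofReal ?_
        have hn' : n = v.length + 1 := by rw [← hn]; simp
        have e1 : x ^ v.length * p = x ^ n * (p / x) := by
          rw [hn', pow_succ]; field_simp
        have e2 : x ^ z.length * (q * (1 - p ^ k)) = x ^ n * (q * (1 - p ^ k) / x ^ k) := by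
          rw [← hzlen, pow_add]; field_simp
        rw [e1, e2, ← mul_add]
        exact mul_le_of_le_one_right (by positivity) hx

theorem tsum_words (x : ENNReal) : ∑' w : List (Fin d), x ^ w.length = ∑' n : ℕ, (d * x) ^ n := by
  rw [← (Equiv.sigmaFiberEquiv (List.length : List (Fin d) → ℕ)).tsum_eq, ENNReal.tsum_sigma']
  refine tsum_congr fun n => ?_
  have h1 : ∀ w : {w : List (Fin d) // w.length = n},
      x ^ ((Equiv.sigmaFiberEquiv (List.length : List (Fin d) → ℕ)) ⟨n, w⟩).length = x ^ n := by
    intro w
    show x ^ w.1.length = x ^ n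
    rw [w.2]
  simp only [h1]
  letI : Fintype {w : List (Fin d) // w.length = n} :=
    (inferInstance : Fintype (List.Vector (Fin d) n))
  have h2 : Fintype.card {w : List (Fin d) // w.length = n} = d ^ n := by
    have := card_vector (α := Fin d) n
    rw [Fintype.card_fin] at this
    exact this
  rw [tsum_fintype, Finset.sum_const, Finset.card_univ, h2, nsmul_eq_mul, mul_pow]
  push_cast
  rfl

/-- below the first moment bound there is no percolation -/
theorem theta_zero (hd : 1 ≤ d) (hk : 1 ≤ k) (p q : unitInterval)
    (h : d * (p : ℝ) + d ^ k * (q * (1 - p ^ k)) < 1) : theta d k p q = 0 := by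
  have hprob : IsProbabilityMeasure (law d p q) := by rw [law_eq]; infer_instance
  have hp0 : (0 : ℝ) ≤ p := p.2.1
  have hp1 : (p : ℝ) ≤ 1 := p.2.2
  have hq0 : (0 : ℝ) ≤ q := q.2.1
  have hpk : (0 : ℝ) ≤ 1 - p ^ k := by
    have := pow_le_one₀ (n := k) hp0 hp1
    linarith
  set ρ : ℝ := d * (p : ℝ) + d ^ k * (q * (1 - p ^ k)) with hρ
  have hρ0 : 0 ≤ ρ := by positivity
  have hd0 : (0 : ℝ) < d := by exact_mod_cast hd
  have hk0 : (0 : ℝ) < k := by exact_mod_cast hk
  have hk1 : (1 : ℝ) ≤ k := by exact_mod_cast hk
  -- choice of the rate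
  obtain ⟨r, hr0, hr1, hrk⟩ : ∃ r : ℝ, 0 < r ∧ r < 1 ∧ ρ ≤ r ^ k := by
    have ht : (1 - ρ) / (2 * k) ≤ 1 / 2 := by
      rw [div_le_div_iff₀ (by positivity) (by norm_num)]
      nlinarith
    have ht0 : 0 < (1 - ρ) / (2 * k) := div_pos (by linarith) (by positivity)
    refine ⟨1 - (1 - ρ) / (2 * k), by linarith, by linarith, ?_⟩
    have hb := one_add_mul_le_pow (a := -((1 - ρ) / (2 * k))) (by linarith) k
    have e : (k : ℝ) * -((1 - ρ) / (2 * k)) = -(1 - ρ) / 2 := by field_simp
    rw [e] at hb
    have e2 : 1 + -((1 - ρ) / (2 * k)) = 1 - (1 - ρ) / (2 * k) := by ring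
    rw [e2] at hb
    linarith
  set x : ℝ := r / d with hx
  have hx0 : 0 < x := by positivity
  have hcond : p / x + q * (1 - p ^ k) / x ^ k ≤ 1 := by
    have e1 : (p : ℝ) / x = d * p / r := by rw [hx]; field_simp
    have e2 : q * (1 - p ^ k) / x ^ k = d ^ k * (q * (1 - p ^ k)) / r ^ k := by
      rw [hx, div_pow]; field_simp
    rw [e1, e2]
    have h1 : d * (p : ℝ) / r ≤ d * p / r ^ k := by
      have : r ^ k ≤ r := by
        calc r ^ k ≤ r ^ 1 := pow_le_pow_of_le_one hr0.le hr1.le hk
          _ = r := pow_one r
      gcongr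
    have h2 : d * (p : ℝ) / r ^ k + d ^ k * (q * (1 - p ^ k)) / r ^ k = ρ / r ^ k := by
      rw [← add_div]
    have h3 : ρ / r ^ k ≤ 1 := by
      rw [div_le_one (by positivity)]; exact hrk
    linarith
  have hsum : ∑' w : List (Fin d), law d p q (RM k w) ≠ ⊤ := by
    refine ne_top_of_le_ne_top ?_ (ENNReal.tsum_le_tsum fun w => prob_reach hk p q hx0 hcond w)
    have e : ∀ w : List (Fin d), ENNReal.ofReal (x ^ w.length) = ENNReal.ofReal x ^ w.length :=
      fun w => ENNReal.ofReal_pow hx0.le _
    simp only [e]
    rw [tsum_words, ENNReal.tsum_geometric]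
    have h1 : (d : ENNReal) * ENNReal.ofReal x = ENNReal.ofReal r := by
      rw [← ENNReal.ofReal_natCast, ← ENNReal.ofReal_mul hd0.le, hx]
      congr 1
      field_simp
    rw [h1]
    refine ENNReal.inv_ne_top.2 ?_
    rw [ne_eq, tsub_eq_zero_iff_le, not_le, ENNReal.ofReal_lt_one]
    exact hr1
  have hfin := ae_finite_setOf_mem hsum
  unfold theta
  rw [measureReal_eq_zero_iff]
  rw [ae_iff] at hfin
  exact hfin

end Pool.Agent.X136.TP
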