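import Pool.Agent.X136.TP.Upper

set_option autoImplicit false

/-!
# The critical curve is not concave near zero
-/

namespace Pool.Agent.X136.TP

open MeasureTheory ProbabilityTheory Filter Topology

variable {d : ℕ}

/-- the set in the definition of the critical curve -/
def QS (d k : ℕ) (p : ℝ) : Set ℝ := {q : ℝ | q ∈ Set.Ioo (0 : ℝ) 1 ∧
    0 < theta d k (Set.projIcc 0 1 zero_le_one p) (Set.projIcc 0 1 zero_le_one q)}

theorem qc_eq (k : ℕ) (p : ℝ) : qc d k p = sInf (QS d k p) := rfl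

theorem qc_le {k : ℕ} {p q : ℝ} (h : q ∈ QS d k p) : qc d k p ≤ q := by
  rw [qc_eq]
  exact csInf_le ⟨0, fun x hx => hx.1.1.le⟩ h

theorem le_qc (hd : 1 ≤ d) {k : ℕ} (hk : 1 ≤ k) {p : ℝ} (hp0 : 0 ≤ p) (hp1 : p < 1)
    (hne : (QS d k p).Nonempty) : (1 - d * p) / (d ^ k * (1 - p ^ k)) ≤ qc d k p := by
  rw [qc_eq]
  refine le_csInf hne ?_
  rintro q ⟨hq, hpos⟩
  by_contra hlt
  push Not at hlt
  have hpk : p ^ k < 1 := pow_lt_one₀ hp0 hp1 (by omega)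
  have hd0 : (0 : ℝ) < d := by exact_mod_cast hd
  have hden : 0 < (d : ℝ) ^ k * (1 - p ^ k) := mul_pos (by positivity) (by linarith)
  rw [lt_div_iff₀ hden] at hlt
  have h := theta_zero hd hk (⟨p, hp0, hp1.le⟩ : unitInterval) (⟨q, hq.1.le, hq.2.le⟩ : unitInterval)
    (by
      show (d : ℝ) * p + d ^ k * (q * (1 - p ^ k)) < 1
      linarith)
  rw [Set.projIcc_of_mem zero_le_one ⟨hp0, hp1.le⟩,
    Set.projIcc_of_mem zero_le_one ⟨hq.1.le, hq.2.le⟩, h] at hpos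
  exact lt_irrefl _ hpos

/-- the upper bound function -/
noncomputable def fu (d K : ℕ) (p : ℝ) : ℝ :=
  (1 + 2 * (d * (K + 1)) * p ^ 2) ^ (K + 1) * (1 + 2 * (d * (K + 1)) * p ^ 2 - d * p)

theorem fu_zero (K : ℕ) : fu d K 0 = 1 := by unfold fu; simp

theorem fu_deriv (K : ℕ) : HasDerivAt (fu d K) (-(d : ℝ)) 0 := by
  have h1 : HasDerivAt (fun p : ℝ => 1 + 2 * ((d : ℝ) * (K + 1)) * p ^ 2) 0 0 := by
    have := ((hasDerivAt_pow 2 (0 : ℝ)).const_mul (2 * ((d : ℝ) * (K + 1)))).const_add 1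
    simpa using this
  have h2 := h1.fun_pow (K + 1)
  have h3 : HasDerivAt (fun p : ℝ => 1 + 2 * ((d : ℝ) * (K + 1)) * p ^ 2 - d * p)
      (0 - (d : ℝ) * 1) 0 :=
    h1.fun_sub ((hasDerivAt_id (0 : ℝ)).const_mul (d : ℝ))
  have h4 := h2.fun_mul h3
  refine h4.congr_deriv ?_
  simp

theorem fu_small (K : ℕ) {η : ℝ} (hη : 0 < η) :
    ∀ᶠ p in 𝓝[>] (0 : ℝ), fu d K p ≤ 1 - d * p + η * p := by
  have h := (hasDerivAt_iff_isLittleO_nhds_zero.1 (fu_deriv (d := d) K)).def hη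
  have h' := h.filter_mono (nhdsWithin_le_nhds (s := Set.Ioi (0 : ℝ)))
  filter_upwards [h', self_mem_nhdsWithin] with p hp hp0
  have hp0' : (0 : ℝ) < p := hp0
  rw [zero_add, fu_zero, smul_eq_mul, Real.norm_eq_abs, Real.norm_eq_abs, abs_of_pos hp0'] at hp
  have := (abs_le.1 hp).2
  linarith

theorem fu_pos (K : ℕ) {p : ℝ} (hp : (d : ℝ) * p < 1) : 0 < fu d K p := by
  unfold fu
  have h1 : 0 ≤ 2 * ((d : ℝ) * (K + 1)) * p ^ 2 := by positivity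
  have h2 : 0 < 1 + 2 * ((d : ℝ) * (K + 1)) * p ^ 2 - d * p := by linarith
  positivity

theorem mem_QS (hd : 2 ≤ d) (K : ℕ) {p : ℝ} (hp0 : 0 < p) (hp : (d : ℝ) * p < 1)
    (hf : fu d K p ≤ 1) : fu d K p / d ^ (K + 2) ∈ QS d (K + 2) p := by
  have hd' : (2 : ℝ) ≤ d := by exact_mod_cast hd
  have hd0 : (0 : ℝ) < d := by linarith
  have hp1 : p < 1 := by nlinarith
  have hfpos := fu_pos K hp
  have hdk : (1 : ℝ) < d ^ (K + 2) := one_lt_pow₀ (by linarith) (by omega)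
  have hq0 : 0 < fu d K p / d ^ (K + 2) := by positivity
  have hq1 : fu d K p / d ^ (K + 2) < 1 := by
    rw [div_lt_one (by positivity)]; linarith
  refine ⟨⟨hq0, hq1⟩, ?_⟩
  rw [Set.projIcc_of_mem zero_le_one ⟨hp0.le, hp1.le⟩,
    Set.projIcc_of_mem zero_le_one ⟨hq0.le, hq1.le⟩]
  have ha : 0 < (d : ℝ) * (K + 1) * p ^ 2 := by positivity
  refine theta_pos hd K _ _ (l := 1 + 2 * (d * (K + 1)) * p ^ 2) (l' := 1 + d * (K + 1) * p ^ 2)
    (by linarith) ?_ ?_ ?_ ?_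
  · show 1 + (d : ℝ) * (K + 1) * p ^ 2 + d * ((K + 1 : ℕ) : ℝ) * p ^ 2 ≤ _
    push_cast
    linarith
  · show (d : ℝ) * p ≤ _
    linarith
  · show _ ≤ (d : ℝ) * (fu d K p / d ^ (K + 2))
    refine le_of_eq ?_
    unfold fu
    rw [div_pow]
    field_simp
    ring
  · show p * (d * (fu d K p / d ^ (K + 2))) ≤ p * (1 / (d : ℝ) ^ (K + 1))
    refine mul_le_mul_of_nonneg_left ?_ hp0.le
    have : (d : ℝ) * (fu d K p / d ^ (K + 2)) = fu d K p / d ^ (K + 1) := by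
      field_simp
      ring
    rw [this]
    gcongr

theorem QS_zero_nonempty (hd : 2 ≤ d) (K : ℕ) : (QS d (K + 2) 0).Nonempty := by
  have hd' : (2 : ℝ) ≤ d := by exact_mod_cast hd
  have hd0 : (0 : ℝ) < d := by linarith
  have hq0 : 0 < ((3 / 2 : ℝ) / d) ^ (K + 2) := by positivity
  have hq1 : ((3 / 2 : ℝ) / d) ^ (K + 2) < 1 := by
    refine pow_lt_one₀ (by positivity) ?_ (by omega)
    rw [div_lt_one hd0]; linarith
  refine ⟨((3 / 2 : ℝ) / d) ^ (K + 2), ⟨hq0, hq1⟩, ?_⟩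
  rw [Set.projIcc_of_mem zero_le_one ⟨le_rfl, zero_le_one⟩,
    Set.projIcc_of_mem zero_le_one ⟨hq0.le, hq1.le⟩]
  refine theta_pos hd K _ _ (l := 3 / 2) (l' := 5 / 4) (by norm_num) ?_ ?_ ?_ ?_
  · show (5 / 4 : ℝ) + d * ((K + 1 : ℕ) : ℝ) * 0 ^ 2 ≤ 3 / 2
    norm_num
  · show (d : ℝ) * 0 ≤ 3 / 2
    norm_num
  · show (3 / 2 : ℝ) * ((3 / 2 / (d : ℝ)) ^ K * ((3 / 2 - d * 0) / d)) ≤
      d * ((3 / 2 : ℝ) / d) ^ (K + 2)
    refine le_of_eq ?_
    rw [pow_add, mul_zero, sub_zero]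
    field_simp
  · show (0 : ℝ) * _ ≤ 0 * _
    rw [zero_mul, zero_mul]

/-- **The critical curve is not concave on any interval `[0, δ]`.** -/
theorem not_concave (hd : 2 ≤ d) {k : ℕ} (hk : 2 ≤ k) {δ : ℝ} (hδ : 0 < δ) :
    ¬ ConcaveOn ℝ (Set.Icc 0 δ) (qc d k) := by
  obtain ⟨K, rfl⟩ : ∃ K, k = K + 2 := ⟨k - 2, by omega⟩
  intro hc
  have hd' : (2 : ℝ) ≤ d := by exact_mod_cast hd
  have hd0 : (0 : ℝ) < d := by linarith
  set D : ℝ := (d : ℝ) ^ (K + 2) with hD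
  have hD0 : 0 < D := by positivity
  have hgood : ∀ᶠ p : ℝ in 𝓝[>] (0 : ℝ), 0 < p ∧ (d : ℝ) * p < 1 ∧ p < δ ∧ fu d K p ≤ 1 := by
    have h1 : Set.Ioo (0 : ℝ) (min (1 / d) δ) ∈ 𝓝[>] (0 : ℝ) :=
      Ioo_mem_nhdsGT (lt_min (by positivity) hδ)
    filter_upwards [h1, fu_small (d := d) K hd0] with p hp hf
    refine ⟨hp.1, ?_, lt_of_lt_of_le hp.2 (min_le_right _ _), by linarith⟩
    have := lt_of_lt_of_le hp.2 (min_le_left _ _)
    rw [lt_div_iff₀ hd0] at this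
    linarith
  obtain ⟨p, hp0, hdp, hpδ, hf⟩ := hgood.exists
  have hp1 : p < 1 := by nlinarith
  have hpk1 : p ^ (K + 2) < 1 := pow_lt_one₀ hp0.le hp1 (by omega)
  have hpk0 : 0 < p ^ (K + 2) := by positivity
  set B : ℝ := (1 - d * p) / (D * (1 - p ^ (K + 2))) with hB
  have hBgt : (1 - d * p) / D < B := by
    rw [hB]
    refine div_lt_div_of_pos_left (by linarith) (mul_pos hD0 (by linarith)) ?_
    nlinarith
  have hqp : B ≤ qc d (K + 2) p := le_qc (by omega) (by omega) hp0.le hp1 ⟨_, mem_QS hd K hp0 hdp hf⟩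
  have hq0 : 1 / D ≤ qc d (K + 2) 0 := by
    have h := le_qc (d := d) (k := K + 2) (by omega) (by omega) le_rfl zero_lt_one
      (QS_zero_nonempty hd K)
    have e : (1 - (d : ℝ) * 0) / (d ^ (K + 2) * (1 - 0 ^ (K + 2))) = 1 / D := by
      rw [hD]; simp
    rwa [e] at h
  set η : ℝ := D * (B - (1 - d * p) / D) / (2 * p) with hη
  have hη0 : 0 < η := by
    have : 0 < B - (1 - d * p) / D := by linarith
    positivity
  have hev : ∀ᶠ p' in 𝓝[>] (0 : ℝ), p' < p := by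
    have : Set.Ioo (0 : ℝ) p ∈ 𝓝[>] (0 : ℝ) := Ioo_mem_nhdsGT hp0
    filter_upwards [this] with x hx using hx.2
  obtain ⟨p', ⟨hp'0, hdp', -, hf'⟩, hfs, hpp'⟩ := (hgood.and ((fu_small (d := d) K hη0).and hev)).exists
  have hup : qc d (K + 2) p' ≤ fu d K p' / D := qc_le (mem_QS hd K hp'0 hdp' hf')
  have hup2 : fu d K p' / D ≤ (1 - d * p' + η * p') / D := by gcongr
  have hm0 : (0 : ℝ) ∈ Set.Icc 0 δ := ⟨le_rfl, hδ.le⟩
  have hmp : p ∈ Set.Icc 0 δ := ⟨hp0.le, hpδ.le⟩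
  have hwa : 0 ≤ 1 - p' / p := by rw [sub_nonneg, div_le_one hp0]; exact hpp'.le
  have hwb : 0 ≤ p' / p := by positivity
  have hwab : 1 - p' / p + p' / p = 1 := by ring
  have hcon := hc.2 hm0 hmp hwa hwb hwab
  simp only [smul_eq_mul, mul_zero, zero_add] at hcon
  rw [div_mul_cancel₀ _ hp0.ne'] at hcon
  have h1 : (1 - p' / p) * (1 / D) + p' / p * B ≤ qc d (K + 2) p' := by
    refine le_trans ?_ hcon
    have h2 : 0 ≤ 1 - p' / p := by rw [sub_nonneg, div_le_one hp0]; exact hpp'.le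
    have h3 : 0 ≤ p' / p := by positivity
    gcongr
  have h2 : (1 - p' / p) * (1 / D) + p' / p * B = (1 - d * p' + 2 * η * p') / D := by
    rw [hη]; field_simp; ring
  rw [h2] at h1
  have h3 : (1 - d * p' + 2 * η * p') / D ≤ (1 - d * p' + η * p') / D :=
    h1.trans (hup.trans hup2)
  rw [div_le_div_iff_of_pos_right hD0] at h3
  nlinarith

end Pool.Agent.X136.TP
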