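import Pool.Agent.X136.TP.Lower

set_option autoImplicit false

/-!
# Survival via a test function
-/

namespace Pool.Agent.X136.TP

open MeasureTheory ProbabilityTheory Filter Topology

variable {d : ℕ}

/-- transition of the state (`x j` says whether the `j`-th ancestor is reachable) -/
def next (K : ℕ) (x : ℕ → Bool) (e : Bool × Bool) : ℕ → Bool
  | 0 => (x 0 && e.1) || (x K && e.2)
  | j + 1 => x j

/-- the state at a vertex when the root has state `x` -/
def st (K : ℕ) (x : ℕ → Bool) (ω : Conf d) : List (Fin d) → ℕ → Bool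
  | [] => x
  | i :: v => next K (st K x ω v) (ω (i :: v))

theorem st_append (K : ℕ) (x : ℕ → Bool) (ω : Conf d) (i : Fin d) : ∀ v : List (Fin d),
    st K x ω (v ++ [i]) = st K (next K x (ω [i])) (shift [i] ω) v
  | [] => rfl
  | j :: v => by
    show next K (st K x ω (v ++ [i])) (ω (j :: (v ++ [i]))) =
      next K (st K (next K x (ω [i])) (shift [i] ω) v) (ω ((j :: v) ++ [i]))
    rw [st_append K x ω i v]
    rfl

/-- the state of the root -/
def x0 : ℕ → Bool := fun j => decide (j = 0)

theorem st_sound (K : ℕ) (ω : Conf d) : ∀ (v : List (Fin d)) (j : ℕ),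
    st K x0 ω v j = true → ∃ u z, u.length = j ∧ v = u ++ z ∧ z ∈ cluster (K + 1) ω
  | [], j, h => by
    have h1 : j = 0 := of_decide_eq_true h
    subst h1
    exact ⟨[], [], rfl, rfl, root_mem ω⟩
  | i :: v, 0, h => by
    have h1 : ((st K x0 ω v 0 && (ω (i :: v)).1) || (st K x0 ω v K && (ω (i :: v)).2)) = true := h
    rw [Bool.or_eq_true, Bool.and_eq_true, Bool.and_eq_true] at h1
    refine ⟨[], i :: v, rfl, rfl, ?_⟩
    rcases h1 with ⟨h1, h2⟩ | ⟨h1, h2⟩
    · obtain ⟨u, z, hu, hv, hz⟩ := st_sound K ω v 0 h1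
      have hu' : u = [] := List.length_eq_zero_iff.1 hu
      subst hu'
      rw [List.nil_append] at hv
      subst hv
      exact Relation.ReflTransGen.tail hz (Or.inl ⟨i, rfl, h2⟩)
    · obtain ⟨u, z, hu, hv, hz⟩ := st_sound K ω v K h1
      refine Relation.ReflTransGen.tail hz (Or.inr ⟨i :: u, by simp [hu], ?_, h2⟩)
      rw [hv]; rfl
  | i :: v, j + 1, h => by
    obtain ⟨u, z, hu, hv, hz⟩ := st_sound K ω v j h
    exact ⟨i :: u, z, by simp [hu], by rw [hv]; rfl, hz⟩

/-- survival up to level `n` -/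
def E' (K : ℕ) : ℕ → (ℕ → Bool) → Set (Fin d → Conf d)
  | 0, x => {_z | ∃ j ≤ K, x j = true}
  | n + 1, x => {z | ∃ i : Fin d, (fun i' => shift [i'] (z i)) ∈ E' K n (next K x (z i []))}

/-- the event at a child -/
def DD (K n : ℕ) (x : ℕ → Bool) : Set (Conf d) :=
  {ω | (fun i' => shift [i'] ω) ∈ E' K n (next K x (ω []))}

theorem E'_succ (K n : ℕ) (x : ℕ → Bool) :
    (E' K (n + 1) x : Set (Fin d → Conf d)) = {z | ∃ i, z i ∈ DD K n x} := rfl

theorem E'_sound (K n : ℕ) : ∀ (x : ℕ → Bool) (ω : Conf d),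
    (fun i => shift [i] ω) ∈ E' K n x → ∃ v : List (Fin d), v.length = n ∧
      ∃ j ≤ K, st K x ω v j = true := by
  induction n with
  | zero => intro x ω h; exact ⟨[], rfl, h⟩
  | succ n ih =>
    rintro x ω ⟨i, h⟩
    obtain ⟨v, hv, j, hj, h1⟩ := ih _ _ h
    refine ⟨v ++ [i], by simp [hv], j, hj, ?_⟩
    rw [st_append]
    exact h1

theorem E'_anti (K n : ℕ) : ∀ x : ℕ → Bool,
    (E' K (n + 1) x : Set (Fin d → Conf d)) ⊆ E' K n x := by
  induction n with
  | zero =>
    rintro x z ⟨i, j, hj, h⟩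
    cases j with
    | zero =>
      have h1 : ((x 0 && (z i []).1) || (x K && (z i []).2)) = true := h
      rw [Bool.or_eq_true, Bool.and_eq_true, Bool.and_eq_true] at h1
      rcases h1 with h1 | h1
      · exact ⟨0, Nat.zero_le _, h1.1⟩
      · exact ⟨K, le_rfl, h1.1⟩
    | succ j => exact ⟨j, by omega, h⟩
  | succ n ih =>
    rintro x z ⟨i, h⟩
    exact ⟨i, ih _ h⟩

theorem measurable_E' (K n : ℕ) : ∀ x : ℕ → Bool,
    MeasurableSet (E' K n x : Set (Fin d → Conf d)) ∧ MeasurableSet (DD K n x : Set (Conf d)) := by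
  have hD : ∀ n, (∀ x : ℕ → Bool, MeasurableSet (E' K n x : Set (Fin d → Conf d))) →
      ∀ x : ℕ → Bool, MeasurableSet (DD K n x : Set (Conf d)) := by
    intro n hE x
    have : (DD K n x : Set (Conf d)) = ⋃ e : Bool × Bool, ({ω | ω [] ∈ ({e} : Set (Bool × Bool))} ∩
        {ω | (fun i' => shift [i'] ω) ∈ E' K n (next K x e)}) := by
      ext ω
      simp only [Set.mem_iUnion]
      constructor
      · intro h
        exact ⟨ω [], rfl, h⟩
      · rintro ⟨e, h1, h2⟩
        have h1' : ω [] = e := h1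
        show (fun i' => shift [i'] ω) ∈ E' K n (next K x (ω []))
        rw [h1']; exact h2
    rw [this]
    refine MeasurableSet.iUnion fun e => (measurable_mark _ _).inter ?_
    have hm : Measurable fun (ω : Conf d) (i' : Fin d) => shift [i'] ω :=
      measurable_pi_lambda _ fun i => measurable_shift [i]
    exact hm (hE _)
  induction n with
  | zero =>
    have h0 : ∀ x : ℕ → Bool, MeasurableSet (E' K 0 x : Set (Fin d → Conf d)) :=
      fun x => MeasurableSet.const _
    exact fun x => ⟨h0 x, hD 0 h0 x⟩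
  | succ n ih =>
    have h1 : ∀ x : ℕ → Bool, MeasurableSet (E' K (n + 1) x : Set (Fin d → Conf d)) := by
      intro x
      rw [E'_succ]
      have : {z : Fin d → Conf d | ∃ i, z i ∈ DD K n x} = ⋃ i, {z | z i ∈ DD K n x} := by
        ext z; simp
      rw [this]
      exact MeasurableSet.iUnion fun i => (measurable_pi_apply i) (ih x).2
    exact fun x => ⟨h1 x, hD (n + 1) h1 x⟩

/-- probability of survival up to level `n` -/
noncomputable def TT (d K : ℕ) (p q : unitInterval) (n : ℕ) (x : ℕ → Bool) : ℝ :=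
  (Measure.infinitePi fun _ : Fin d => law d p q).real (E' K n x)

instance (p q : unitInterval) : IsProbabilityMeasure (law d p q) := by
  rw [law_eq]; infer_instance

theorem prob_DD (K : ℕ) (p q : unitInterval) (n : ℕ) (x : ℕ → Bool) :
    (law d p q).real (DD K n x) =
      ∑ e : Bool × Bool, (mk p q).real {e} * TT d K p q n (next K x e) := by
  set S : Set ((Bool × Bool) × (Fin d → Conf d)) := {r | r.2 ∈ E' K n (next K x r.1)} with hS
  have hSm : MeasurableSet S := by
    have : S = ⋃ e : Bool × Bool, ({e} : Set (Bool × Bool)) ×ˢ E' K n (next K x e) := by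
      ext ⟨e, z⟩
      simp only [Set.mem_iUnion, Set.mem_prod, Set.mem_singleton_iff]
      constructor
      · intro h; exact ⟨e, rfl, h⟩
      · rintro ⟨e', rfl, h⟩; exact h
    rw [this]
    exact MeasurableSet.iUnion fun e => (measurableSet_singleton e).prod (measurable_E' K n _).1
  have h1 := (mp_root (ι := Fin d) (mk p q)).measure_preimage hSm.nullMeasurableSet
  have h2 : (fun ω : Conf d => (ω [], fun i : Fin d => shift [i] ω)) ⁻¹' S = DD K n x := rfl
  rw [h2, Measure.prod_apply hSm, lintegral_fintype] at h1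
  unfold Measure.real
  have h3 : law d p q (DD K n x) = ∑ e : Bool × Bool,
      (Measure.infinitePi fun _ : Fin d => law d p q) (E' K n (next K x e)) * mk p q {e} := h1
  rw [h3, ENNReal.toReal_sum]
  · refine Finset.sum_congr rfl fun e _ => ?_
    rw [ENNReal.toReal_mul, mul_comm]
    rfl
  · intro e _
    exact ENNReal.mul_ne_top (measure_ne_top _ _) (measure_ne_top _ _)

theorem TT_succ (K : ℕ) (p q : unitInterval) (n : ℕ) (x : ℕ → Bool) :
    TT d K p q (n + 1) x = 1 - (1 - (law d p q).real (DD K n x)) ^ d := by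
  have hm := (measurable_E' (d := d) K n x).2
  have e : (E' K (n + 1) x : Set (Fin d → Conf d)) = (Set.univ.pi fun _ => (DD K n x)ᶜ)ᶜ := by
    rw [E'_succ]
    ext z
    simp only [Set.mem_ofPred_eq, Set.mem_compl_iff, Set.mem_pi, Set.mem_univ, true_implies]
    push Not
    rfl
  have hpi : MeasurableSet (Set.univ.pi fun _ : Fin d => (DD K n x : Set (Conf d))ᶜ) :=
    MeasurableSet.univ_pi fun _ => hm.compl
  unfold TT
  rw [e, probReal_compl_eq_one_sub hpi]
  congr 1
  unfold Measure.real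
  have h1 := Measure.infinitePi_pi (fun _ : Fin d => law d p q) (s := Finset.univ)
    (t := fun _ => (DD K n x)ᶜ) (fun _ _ => hm.compl)
  rw [Finset.coe_univ] at h1
  rw [h1, Finset.prod_const, Finset.card_univ, Fintype.card_fin, ENNReal.toReal_pow,
    prob_compl_eq_one_sub hm, ENNReal.toReal_sub_of_le prob_le_one ENNReal.one_ne_top]
  simp

theorem TT_nonneg (K : ℕ) (p q : unitInterval) (n : ℕ) (x : ℕ → Bool) :
    0 ≤ TT d K p q n x := measureReal_nonneg

/-! ### the test function -/

/-- value of a boolean -/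
def bv (b : Bool) : ℝ := if b then 1 else 0

theorem bv_nonneg (b : Bool) : 0 ≤ bv b := by unfold bv; split_ifs <;> norm_num

theorem bv_le_one (b : Bool) : bv b ≤ 1 := by unfold bv; split_ifs <;> norm_num

/-- plain sum -/
def SS (m : ℕ) (x : ℕ → Bool) : ℝ := ∑ i ∈ Finset.range m, bv (x i)

/-- weighted sum -/
noncomputable def AA (d m : ℕ) (x : ℕ → Bool) : ℝ :=
  ∑ i ∈ Finset.range m, (1 / (d : ℝ)) ^ i * bv (x i)

/-- quadratic form -/
noncomputable def WW (d m : ℕ) (x : ℕ → Bool) : ℝ := ∑ j ∈ Finset.range m, bv (x j) * AA d j x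

/-- linear part -/
noncomputable def LL (K : ℕ) (c : ℕ → ℝ) (x : ℕ → Bool) : ℝ :=
  ∑ j ∈ Finset.range K, c j * bv (x j)

/-- the test function -/
noncomputable def hh (d K : ℕ) (c : ℕ → ℝ) (p : ℝ) (x : ℕ → Bool) : ℝ :=
  bv (x 0) + ∑ j ∈ Finset.range K, c j * bv (x (j + 1)) - p * WW d (K + 1) x

theorem SS_nonneg (m : ℕ) (x : ℕ → Bool) : 0 ≤ SS m x := Finset.sum_nonneg fun _ _ => bv_nonneg _

theorem SS_le (m : ℕ) (x : ℕ → Bool) : SS m x ≤ m := by
  unfold SS
  calc ∑ i ∈ Finset.range m, bv (x i) ≤ ∑ _i ∈ Finset.range m, (1 : ℝ) :=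
        Finset.sum_le_sum fun i _ => bv_le_one _
    _ = m := by simp

theorem AA_nonneg (m : ℕ) (x : ℕ → Bool) : 0 ≤ AA d m x :=
  Finset.sum_nonneg fun _ _ => mul_nonneg (by positivity) (bv_nonneg _)

theorem WW_nonneg (m : ℕ) (x : ℕ → Bool) : 0 ≤ WW d m x :=
  Finset.sum_nonneg fun _ _ => mul_nonneg (bv_nonneg _) (AA_nonneg _ _)

theorem AA_next (K m : ℕ) (x : ℕ → Bool) (e : Bool × Bool) :
    AA d (m + 1) (next K x e) = bv (next K x e 0) + (1 / (d : ℝ)) * AA d m x := by
  unfold AA
  rw [Finset.sum_range_succ', Finset.mul_sum, add_comm]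
  congr 1
  · simp
  · refine Finset.sum_congr rfl fun i _ => ?_
    rw [pow_succ]
    show _ = _
    have : next K x e (i + 1) = x i := rfl
    rw [this]; ring

theorem WW_next (K m : ℕ) (x : ℕ → Bool) (e : Bool × Bool) :
    WW d (m + 1) (next K x e) = bv (next K x e 0) * SS m x + (1 / (d : ℝ)) * WW d m x := by
  unfold WW SS
  rw [Finset.sum_range_succ', Finset.mul_sum, Finset.mul_sum, ← Finset.sum_add_distrib]
  have h0 : AA d 0 (next K x e) = 0 := by unfold AA; simp
  rw [h0, mul_zero, add_zero]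
  refine Finset.sum_congr rfl fun j _ => ?_
  have : next K x e (j + 1) = x j := rfl
  rw [AA_next, this]; ring

theorem hh_next (K : ℕ) (c : ℕ → ℝ) (p : ℝ) (x : ℕ → Bool) (e : Bool × Bool) :
    hh d K c p (next K x e) = bv (next K x e 0) * (1 - p * SS K x) +
      (LL K c x - p * ((1 / (d : ℝ)) * WW d K x)) := by
  unfold hh LL
  rw [WW_next]
  have : ∀ j, next K x e (j + 1) = x j := fun _ => rfl
  simp only [this]
  ring

theorem mk_real (p q : unitInterval) (a b : Bool) : (mk p q).real {(a, b)} =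
    (if a then (p : ℝ) else 1 - p) * (if b then (q : ℝ) else 1 - q) := by
  have h1 : ({(a, b)} : Set (Bool × Bool)) = {a} ×ˢ {b} := by simp
  have h2 : ∀ (r : unitInterval) (c : Bool), (bernoulliMeasure true false r).real {c} =
      if c then (r : ℝ) else 1 - r := by
    intro r c
    have ht : (bernoulliMeasure true false r).real {true} = r := by
      unfold Measure.real
      rw [bern_true, ENNReal.toReal_ofReal r.2.1]
    cases c
    · have e : ({false} : Set Bool) = {true}ᶜ := by ext b; cases b <;> simp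
      rw [e, probReal_compl_eq_one_sub (measurableSet_singleton _), ht]
      simp
    · rw [ht]; simp
  rw [h1, mk, measureReal_prod_prod, h2, h2]

theorem EX_eq (K : ℕ) (p q : unitInterval) (x : ℕ → Bool) (A B : ℝ) :
    ∑ e : Bool × Bool, (mk p q).real {e} * (bv (next K x e 0) * A + B) =
      (p * bv (x 0) + q * bv (x K) - p * q * (bv (x 0) * bv (x K))) * A + B := by
  rw [Fintype.sum_prod_type]
  simp only [Fintype.sum_bool, mk_real]
  unfold next
  unfold bv
  cases x 0 <;> cases x K <;> simp <;> ring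

theorem SS_le_AA (hd : 2 ≤ d) (x : ℕ → Bool) (m : ℕ) :
    bv (x 0) + SS (m + 1) x ≤ (d : ℝ) ^ (m + 1) * AA d (m + 1) x := by
  have hd' : (2 : ℝ) ≤ d := by exact_mod_cast hd
  induction m with
  | zero =>
    unfold SS AA
    simp only [zero_add, Finset.sum_range_one, pow_zero, one_mul, pow_one]
    have := bv_nonneg (x 0)
    nlinarith
  | succ m ih =>
    have e1 : SS (m + 1 + 1) x = SS (m + 1) x + bv (x (m + 1)) := by
      unfold SS; rw [Finset.sum_range_succ]
    have e2 : AA d (m + 1 + 1) x = AA d (m + 1) x + (1 / (d : ℝ)) ^ (m + 1) * bv (x (m + 1)) := by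
      unfold AA; rw [Finset.sum_range_succ]
    have hd0 : (0 : ℝ) < d := by linarith
    have e3 : (d : ℝ) ^ (m + 1 + 1) * ((1 / (d : ℝ)) ^ (m + 1) * bv (x (m + 1))) =
        d * bv (x (m + 1)) := by
      rw [one_div, inv_pow]; field_simp; ring
    rw [e1, e2, mul_add, e3]
    have h1 := AA_nonneg (d := d) (m + 1) x
    have h2 := bv_nonneg (x (m + 1))
    have h3 : (d : ℝ) ^ (m + 1) * AA d (m + 1) x ≤ (d : ℝ) ^ (m + 1 + 1) * AA d (m + 1) x := by
      gcongr
      · linarith
      · omega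
    nlinarith

/-- the main inequality for the test function; `k = K + 2` -/
theorem drift (hd : 2 ≤ d) (K : ℕ) (p q : unitInterval) {l l' : ℝ} (hl' : 1 ≤ l')
    (hll : l' + d * ((K + 1 : ℕ) : ℝ) * p ^ 2 ≤ l)
    {c : ℕ → ℝ} (hc : ∀ j, c j = (l / d) ^ j * ((l - d * p) / d)) (hlp : d * (p : ℝ) ≤ l)
    (hq : l * c K ≤ d * q) (hq1 : (p : ℝ) * (d * q) ≤ p * (1 / (d : ℝ) ^ (K + 1)))
    (x : ℕ → Bool) :
    l' * hh d (K + 1) c p x ≤
      d * ∑ e : Bool × Bool, (mk p q).real {e} * hh d (K + 1) c p (next (K + 1) x e) := by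
  have hd' : (2 : ℝ) ≤ d := by exact_mod_cast hd
  have hd0 : (0 : ℝ) < d := by linarith
  have hp0 : (0 : ℝ) ≤ p := p.2.1
  have hq0 : (0 : ℝ) ≤ q := q.2.1
  have hl0 : 0 < l := by
    have : 0 ≤ d * ((K + 1 : ℕ) : ℝ) * (p : ℝ) ^ 2 := by positivity
    linarith
  simp only [hh_next]
  rw [EX_eq]
  set X0 := bv (x 0) with hX0
  set XK := bv (x (K + 1)) with hXK
  have hX00 : 0 ≤ X0 := bv_nonneg _
  have hXK0 : 0 ≤ XK := bv_nonneg _
  have hc0 : ∀ j, 0 ≤ c j := by
    intro j
    rw [hc]
    have : 0 ≤ l - d * p := by linarith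
    positivity
  have hcs : ∀ j, d * c (j + 1) = l * c j := by
    intro j; rw [hc, hc, pow_succ]; field_simp
  have hc00 : d * c 0 = l - d * p := by rw [hc]; field_simp
  -- the linear part
  set M := ∑ j ∈ Finset.range K, c j * bv (x (j + 1)) with hM
  have hM0 : 0 ≤ M := Finset.sum_nonneg fun j _ => mul_nonneg (hc0 j) (bv_nonneg _)
  have hLL : d * LL (K + 1) c x = (l - d * p) * X0 + l * M := by
    unfold LL
    rw [Finset.sum_range_succ', mul_add, ← mul_assoc, hc00, hM, Finset.mul_sum, Finset.mul_sum,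
      add_comm]
    congr 1
    refine Finset.sum_congr rfl fun j _ => ?_
    rw [← mul_assoc, hcs]; ring
  have hlin : ∑ j ∈ Finset.range (K + 1), c j * bv (x (j + 1)) = M + c K * XK := by
    rw [Finset.sum_range_succ]
  unfold hh
  rw [hlin]
  -- the quadratic part
  set W := WW d (K + 1) x with hW
  set A := AA d (K + 1) x with hA
  set S := SS (K + 1) x with hS
  have hW0 : 0 ≤ W := WW_nonneg _ _
  have hA0 : 0 ≤ A := AA_nonneg _ _
  have hS0 : 0 ≤ S := SS_nonneg _ _
  have hSK : S ≤ ((K + 1 : ℕ) : ℝ) := SS_le _ _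
  have hWW : WW d (K + 1 + 1) x = W + XK * A := by
    show ∑ j ∈ Finset.range (K + 1 + 1), bv (x j) * AA d j x = _
    rw [Finset.sum_range_succ]
    rfl
  rw [hWW]
  have hSA : X0 + S ≤ (d : ℝ) ^ (K + 1) * A := SS_le_AA hd x K
  -- combine
  have key : (p : ℝ) * (d * q * (XK * (X0 + S))) ≤ p * (XK * A) := by
    have h1 : (p : ℝ) * (d * q) * (XK * (X0 + S)) ≤
        p * (1 / (d : ℝ) ^ (K + 1)) * (XK * ((d : ℝ) ^ (K + 1) * A)) := by
      have h2 : XK * (X0 + S) ≤ XK * ((d : ℝ) ^ (K + 1) * A) :=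
        mul_le_mul_of_nonneg_left hSA hXK0
      have h3 : 0 ≤ XK * (X0 + S) := by positivity
      calc (p : ℝ) * (d * q) * (XK * (X0 + S))
          ≤ p * (1 / (d : ℝ) ^ (K + 1)) * (XK * (X0 + S)) :=
            mul_le_mul_of_nonneg_right hq1 h3
        _ ≤ _ := mul_le_mul_of_nonneg_left h2 (by positivity)
    have e1 : p * (1 / (d : ℝ) ^ (K + 1)) * (XK * ((d : ℝ) ^ (K + 1) * A)) = p * (XK * A) := by
      field_simp
    rw [e1] at h1
    linarith
  have hq' : l * c K * XK ≤ d * q * XK := mul_le_mul_of_nonneg_right hq hXK0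
  have h5 : (l - l') * X0 ≥ d * ((K + 1 : ℕ) : ℝ) * p ^ 2 * X0 :=
    mul_le_mul_of_nonneg_right (by linarith) hX00
  have h6 : d * ((p : ℝ) * X0) * (p * S) ≤ d * ((K + 1 : ℕ) : ℝ) * p ^ 2 * X0 := by
    have : (d * ((p : ℝ) * X0) * p) * S ≤ (d * ((p : ℝ) * X0) * p) * ((K + 1 : ℕ) : ℝ) :=
      mul_le_mul_of_nonneg_left hSK (by positivity)
    nlinarith
  have h7 : 0 ≤ (l - l') * (M + c K * XK) := by
    have : 0 ≤ d * ((K + 1 : ℕ) : ℝ) * (p : ℝ) ^ 2 := by positivity
    exact mul_nonneg (by linarith) (add_nonneg hM0 (mul_nonneg (hc0 K) hXK0))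
  have h8 : 0 ≤ (l' - 1) * (p * (W + XK * A)) :=
    mul_nonneg (by linarith) (mul_nonneg hp0 (add_nonneg hW0 (mul_nonneg hXK0 hA0)))
  have h9 : 0 ≤ d * ((p : ℝ) * q * (X0 * XK)) * (p * S) := by positivity
  have e2 : (d : ℝ) * (((p : ℝ) * X0 + (q : ℝ) * XK - (p : ℝ) * q * (X0 * XK)) * (1 - (p : ℝ) * S) +
      (LL (K + 1) c x - (p : ℝ) * (1 / (d : ℝ) * W))) =
      (d * ((p : ℝ) * X0) + d * LL (K + 1) c x) + d * q * XK - p * (d * q * (XK * (X0 + S)))
        - d * ((p : ℝ) * X0) * (p * S) + d * ((p : ℝ) * q * (X0 * XK)) * (p * S) - p * W := by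
    field_simp
    ring
  rw [e2, hLL]
  nlinarith

/-- positive probability of percolation; `k = K + 2` -/
theorem theta_pos (hd : 2 ≤ d) (K : ℕ) (p q : unitInterval) {l l' : ℝ} (hl' : 1 < l')
    (hll : l' + d * ((K + 1 : ℕ) : ℝ) * p ^ 2 ≤ l) (hlp : d * (p : ℝ) ≤ l)
    (hq : l * ((l / d) ^ K * ((l - d * p) / d)) ≤ d * q)
    (hq1 : (p : ℝ) * (d * q) ≤ p * (1 / (d : ℝ) ^ (K + 1))) :
    0 < theta d (K + 2) p q := by
  have hd' : (2 : ℝ) ≤ d := by exact_mod_cast hd
  have hd0 : (0 : ℝ) < d := by linarith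
  have hp0 : (0 : ℝ) ≤ p := p.2.1
  set c : ℕ → ℝ := fun j => (l / d) ^ j * ((l - d * p) / d) with hc
  have hl0 : 0 < l := by
    have : 0 ≤ d * ((K + 1 : ℕ) : ℝ) * (p : ℝ) ^ 2 := by positivity
    linarith
  have hc0 : ∀ j, 0 ≤ c j := by
    intro j
    have : 0 ≤ l - d * p := by linarith
    simp only [hc]
    positivity
  have hdrift := drift hd K p q hl'.le hll (c := c) (fun _ => rfl) hlp hq hq1
  set H : ℝ := 1 + ∑ j ∈ Finset.range (K + 1), c j with hH
  have hH1 : 1 ≤ H := by
    have : 0 ≤ ∑ j ∈ Finset.range (K + 1), c j := Finset.sum_nonneg fun j _ => hc0 j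
    linarith
  have hhle : ∀ x, hh d (K + 1) c p x ≤ H := by
    intro x
    unfold hh
    have h1 : ∑ j ∈ Finset.range (K + 1), c j * bv (x (j + 1)) ≤ ∑ j ∈ Finset.range (K + 1), c j :=
      Finset.sum_le_sum fun j _ => mul_le_of_le_one_right (hc0 j) (bv_le_one _)
    have h2 := mul_nonneg hp0 (WW_nonneg (d := d) (K + 1 + 1) x)
    have h3 := bv_le_one (x 0)
    linarith
  set ε : ℝ := (l' - 1) / (l' * H) with hε
  have hε0 : 0 < ε := div_pos (by linarith) (by positivity)
  have hεH : l' * (ε * H) = l' - 1 := by rw [hε]; field_simp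
  have hεH1 : ε * H ≤ 1 := by
    have : 0 < l' := by linarith
    nlinarith
  -- the induction
  have key : ∀ n x, ε * hh d (K + 1) c p x ≤ TT d (K + 1) p q n x := by
    intro n
    induction n with
    | zero =>
      intro x
      by_cases hx : ∃ j ≤ K + 1, x j = true
      · have h1 : TT d (K + 1) p q 0 x = 1 := by
          unfold TT
          have : (E' (K + 1) 0 x : Set (Fin d → Conf d)) = Set.univ := by
            ext z; simp only [Set.mem_univ, iff_true]; exact hx
          rw [this, probReal_univ]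
        rw [h1]
        exact (mul_le_mul_of_nonneg_left (hhle x) hε0.le).trans hεH1
      · push Not at hx
        have h1 : ∀ j ≤ K + 1, bv (x j) = 0 := by
          intro j hj
          have := hx j hj
          unfold bv
          rw [if_neg this]
        have h2 : hh d (K + 1) c p x = 0 := by
          unfold hh WW
          rw [h1 0 (by omega), Finset.sum_eq_zero, Finset.sum_eq_zero]
          · ring
          · intro j hj
            rw [h1 j (by have := Finset.mem_range.1 hj; omega), zero_mul]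
          · intro j hj
            rw [h1 (j + 1) (by have := Finset.mem_range.1 hj; omega), mul_zero]
        rw [h2, mul_zero]
        exact TT_nonneg _ _ _ _ _
    | succ n ih =>
      intro x
      set hx := hh d (K + 1) c p x with hhx
      rcases le_or_gt hx 0 with h0 | h0
      · exact (mul_nonpos_of_nonneg_of_nonpos hε0.le h0).trans (TT_nonneg _ _ _ _ _)
      · rw [TT_succ]
        set Y := (law d p q).real (DD (K + 1) n x) with hY
        have hY1 : Y ≤ 1 := measureReal_le_one
        have hYge : ε * (l' * hx) ≤ d * Y := by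
          rw [hY, prob_DD]
          calc ε * (l' * hx) ≤ ε * (d * ∑ e : Bool × Bool, (mk p q).real {e} *
                hh d (K + 1) c p (next (K + 1) x e)) :=
                mul_le_mul_of_nonneg_left (hdrift x) hε0.le
            _ = d * ∑ e : Bool × Bool, (mk p q).real {e} *
                (ε * hh d (K + 1) c p (next (K + 1) x e)) := by
                rw [Finset.mul_sum, Finset.mul_sum, Finset.mul_sum]
                refine Finset.sum_congr rfl fun e _ => by ring
            _ ≤ _ := by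
                gcongr with e he
                exact ih _
        set t := ε * hx with ht
        have ht0 : 0 < t := mul_pos hε0 h0
        have htH : l' * t ≤ l' - 1 := by
          rw [← hεH, ht]
          have : 0 < l' := by linarith
          gcongr
          exact hhle x
        set y0 := l' * t / d with hy0
        have hy0Y : y0 ≤ Y := by
          rw [hy0, div_le_iff₀ hd0]
          have : ε * (l' * hx) = l' * t := by rw [ht]; ring
          linarith
        have hy00 : 0 < y0 := by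
          have : 0 < l' := by linarith
          positivity
        have h1 : (1 - Y) ^ d ≤ (1 - y0) ^ d := by
          refine pow_le_pow_left₀ (by linarith) (by linarith) d
        have h2 : (1 - y0) ^ d * (1 + d * y0) ≤ 1 := by
          have h3 : (1 : ℝ) + d * y0 ≤ (1 + y0) ^ d := one_add_mul_le_pow (by linarith) d
          have h4 : 0 ≤ 1 - y0 := by linarith
          calc (1 - y0) ^ d * (1 + d * y0) ≤ (1 - y0) ^ d * (1 + y0) ^ d := by gcongr
            _ = (1 - y0 ^ 2) ^ d := by rw [← mul_pow]; ring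
            _ ≤ 1 := pow_le_one₀ (by nlinarith) (by nlinarith)
        have h3 : d * y0 = l' * t := by rw [hy0]; field_simp
        rw [h3] at h2
        have h4 : (1 - y0) ^ d ≤ 1 - t := by
          have h5 : 0 < 1 + l' * t := by positivity
          have h6 : 1 ≤ (1 - t) * (1 + l' * t) := by nlinarith
          have h7 : (1 - y0) ^ d * (1 + l' * t) ≤ (1 - t) * (1 + l' * t) := by linarith
          exact le_of_mul_le_mul_right h7 h5
        linarith
  -- conclusion
  have hx0 : hh d (K + 1) c p x0 = 1 := by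
    unfold hh WW
    have h1 : ∀ j, bv (x0 (j + 1)) = 0 := fun j => by unfold bv x0; simp
    have h2 : bv (x0 0) = 1 := by unfold bv x0; simp
    rw [Finset.sum_eq_zero (fun j _ => by rw [h1, mul_zero]), Finset.sum_range_succ',
      Finset.sum_eq_zero (fun j _ => by rw [h1, zero_mul]), h2]
    have h3 : AA d 0 x0 = 0 := by unfold AA; simp
    rw [h3]; ring
  set F : ℕ → Set (Conf d) := fun n => {ω | (fun i : Fin d => shift [i] ω) ∈ E' (K + 1) n x0}
    with hF
  have hmap : Measurable fun (ω : Conf d) (i' : Fin d) => shift [i'] ω :=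
    measurable_pi_lambda _ fun i => measurable_shift [i]
  have hFm : ∀ n, MeasurableSet (F n) := fun n => hmap (measurable_E' (K + 1) n x0).1
  have hFanti : Antitone F := antitone_nat_of_succ_le fun n ω h => E'_anti (K + 1) n x0 h
  have hFp : ∀ n, ENNReal.ofReal ε ≤ law d p q (F n) := by
    intro n
    have h1 := (mp_root (ι := Fin d) (mk p q)).measure_preimage
      (MeasurableSet.univ.prod (measurable_E' (K + 1) n x0).1).nullMeasurableSet
    rw [Measure.prod_prod, measure_univ, one_mul] at h1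
    have h2 : (fun ω : Conf d => (ω [], fun i : Fin d => shift [i] ω)) ⁻¹'
        (Set.univ ×ˢ E' (K + 1) n x0) = F n := by
      ext ω
      simp [hF]
    rw [h2] at h1
    have h3 : law d p q (F n) =
        (Measure.infinitePi fun _ : Fin d => law d p q) (E' (K + 1) n x0) := h1
    rw [h3]
    refine (ENNReal.ofReal_le_iff_le_toReal (measure_ne_top _ _)).2 ?_
    have h4 := key n x0
    rw [hx0, mul_one] at h4
    exact h4
  have hlim : Tendsto (fun n => law d p q (F n)) atTop (𝓝 (law d p q (⋂ n, F n))) :=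
    tendsto_measure_iInter_atTop (fun n => (hFm n).nullMeasurableSet) hFanti
      ⟨0, measure_ne_top _ _⟩
  have hge : ENNReal.ofReal ε ≤ law d p q (⋂ n, F n) := ge_of_tendsto' hlim hFp
  have hsub : (⋂ n, F n) ⊆ {c | (cluster (K + 2) c).Infinite} := by
    intro ω hω hfin
    rw [Set.mem_iInter] at hω
    obtain ⟨N, hN⟩ : ∃ N, ∀ z ∈ cluster (K + 2) ω, z.length ≤ N := by
      obtain ⟨N, hN⟩ := (hfin.image List.length).bddAbove
      exact ⟨N, fun z hz => hN ⟨z, hz, rfl⟩⟩
    obtain ⟨v, hv, j, hj, h1⟩ := E'_sound (K + 1) (N + K + 2) x0 ω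
      (show (fun i : Fin d => shift [i] ω) ∈ E' (K + 1) (N + K + 2) x0 from hω (N + K + 2))
    obtain ⟨u, z, hu, hvz, hz⟩ := st_sound (K + 1) ω v j h1
    have h2 := hN z hz
    rw [hvz, List.length_append] at hv
    omega
  unfold theta
  have h1 : ENNReal.ofReal ε ≤ law d p q {c | (cluster (K + 2) c).Infinite} :=
    hge.trans (measure_mono hsub)
  have h2 : ε ≤ (law d p q).real {c | (cluster (K + 2) c).Infinite} :=
    (ENNReal.ofReal_le_iff_le_toReal (measure_ne_top _ _)).1 h1
  linarith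

end Pool.Agent.X136.TP
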